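import Pool.Agent.Helper38.FRX.Goals

/-!
# Project FRX, packet ENC: counting the labellings
-/

set_option autoImplicit false

namespace Pool.Agent.Helper2.FRX

open Finset Pool.Agent.Helper55.FR Pool.Agent.Helper38.FRX

theorem card_lab : Fintype.card Lab = 5 := by decide

theorem enc (hSUBC : SubcStmt) : EncStmt := by
  classical
  intro V _ _ r L κ par dep hL hp ρ PP A Y k v hA
  have hfin : A.card = ∑ Z ∈ PP, (A.filter fun f => Y f = Z).card :=
    card_eq_sum_card_fiberwise fun f hf => mem_coe.2 (hA f (mem_coe.1 hf)).1
  have hfib : ∀ (Z C : Finset V), Z.card ≤ k → C.card ≤ v →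
      ((A.filter fun f => Y f = Z).filter fun f => Ct κ par Z f = C).card ≤ 5 ^ (k + v) := by
    intro Z C hZ hC
    have h1 : ((A.filter fun f => Y f = Z).filter fun f => Ct κ par Z f = C).card ≤
        (univ : Finset ({x // x ∈ Z ∪ C} → Lab)).card := by
      refine card_le_card_of_injOn (fun f x => f x) (fun _ _ => mem_coe.2 (mem_univ _)) ?_
      intro f hf f' hf' he
      simp only [coe_filter, mem_filter, Set.mem_ofPred_eq] at hf hf'
      obtain ⟨⟨hfA, hfY⟩, hfC⟩ := hf
      obtain ⟨⟨hfA', hfY'⟩, hfC'⟩ := hf'
      have he1 : ∀ s ∈ Z ∪ C, f s = f' s := fun s hs => congrFun he ⟨s, hs⟩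
      have key : ∀ d : ℕ, ∀ x, dep x ≤ d → κ x ∈ Z → f x = f' x := by
        intro d
        induction d using Nat.strong_induction_on with
        | _ d ih =>
          intro x hx hxZ
          by_cases hxr : x = κ x
          · exact he1 x (mem_union_left _ (hxr ▸ hxZ))
          · by_cases hxC : x ∈ C
            · exact he1 x (mem_union_right _ hxC)
            · have h2 : ∀ g : V → Lab, Ct κ par Z g = C → g x = flip (g (par x)) := by
                intro g hg
                by_contra hne
                apply hxC
                rw [← hg]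
                exact mem_filter.2 ⟨mem_univ _, hxZ, hxr, hne⟩
              have h3 := hp.dp x hxr
              rw [h2 f hfC, h2 f' hfC', ih (dep (par x)) (by omega) (par x) le_rfl
                (by rw [hp.kp]; exact hxZ)]
      funext x
      by_cases hx : κ x ∈ Z
      · exact key _ x le_rfl hx
      · rw [(hA f hfA).2.2.1 x (by rw [hfY]; exact hx),
          (hA f' hfA').2.2.1 x (by rw [hfY']; exact hx)]
    refine h1.trans ?_
    rw [card_univ, Fintype.card_fun, card_lab, Fintype.card_coe]
    exact Nat.pow_le_pow_right (by norm_num) ((card_union_le _ _).trans (Nat.add_le_add hZ hC))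
  have hY : ∀ Z ∈ PP, ((A.filter fun f => Y f = Z).card : ℝ) ≤
      ((4 * (L : ℝ)) ^ v * 3 ^ k) * 5 ^ (k + v) := by
    intro Z _
    rcases (A.filter fun f => Y f = Z).eq_empty_or_nonempty with h | ⟨f₀, hf₀⟩
    · rw [h, card_empty, Nat.cast_zero]
      positivity
    · have hZk : Z.card ≤ k := by
        obtain ⟨h1, h2⟩ := mem_filter.1 hf₀
        rw [← h2]
        exact (hA f₀ h1).2.1
      set S : Finset V := univ.filter fun x => κ x ∈ Z with hS
      have hSc : S.card ≤ 4 * L * k := by
        have h1 : S ⊆ Z.biUnion fun s => univ.filter fun x => κ x = s := by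
          intro x hx
          rw [mem_biUnion]
          exact ⟨κ x, (mem_filter.1 hx).2, mem_filter.2 ⟨mem_univ _, rfl⟩⟩
        refine (card_le_card h1).trans (card_biUnion_le.trans ?_)
        have h2 : ∀ s ∈ Z, (univ.filter fun x => κ x = s).card ≤ 4 * L := by
          intro s _
          by_cases h : ∃ v, κ v = s
          · obtain ⟨v, rfl⟩ := h
            exact hp.up v
          · rw [filter_eq_empty_iff.2 fun x _ hx => h ⟨x, hx⟩]
            simp
        refine (sum_le_sum h2).trans ?_
        rw [sum_const, smul_eq_mul, mul_comm]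
        exact Nat.mul_le_mul_left _ hZk
      have h1 : (A.filter fun f => Y f = Z).card =
          ∑ C ∈ S.powerset.filter (fun C => C.card ≤ v),
            ((A.filter fun f => Y f = Z).filter fun f => Ct κ par Z f = C).card := by
        refine card_eq_sum_card_fiberwise ?_
        intro f hf
        obtain ⟨hfA, hfY⟩ := mem_filter.1 (mem_coe.1 hf)
        rw [mem_coe, mem_filter, mem_powerset]
        refine ⟨?_, ?_⟩
        · intro x hx
          exact mem_filter.2 ⟨mem_univ _, (mem_filter.1 hx).2.1⟩
        · have := (hA f hfA).2.2.2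
          rwa [hfY] at this
      have h2 : (A.filter fun f => Y f = Z).card ≤
          (S.powerset.filter (fun C => C.card ≤ v)).card * 5 ^ (k + v) := by
        rw [h1, ← smul_eq_mul, ← sum_const]
        exact sum_le_sum fun C hC => hfib Z C hZk (mem_filter.1 hC).2
      have h3 := hSUBC V S L k v hL hSc
      calc ((A.filter fun f => Y f = Z).card : ℝ) ≤
          ((S.powerset.filter (fun C => C.card ≤ v)).card * 5 ^ (k + v) : ℕ) := by
            exact_mod_cast h2
        _ = ((S.powerset.filter (fun C => C.card ≤ v)).card : ℝ) * 5 ^ (k + v) := by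
            push_cast; ring
        _ ≤ _ := mul_le_mul_of_nonneg_right h3 (by positivity)
  rw [hfin]
  push_cast
  calc ∑ Z ∈ PP, ((A.filter fun f => Y f = Z).card : ℝ) ≤
      ∑ _Z ∈ PP, ((4 * (L : ℝ)) ^ v * 3 ^ k) * 5 ^ (k + v) := sum_le_sum hY
    _ = _ := by rw [sum_const, nsmul_eq_mul]; ring

end Pool.Agent.Helper2.FRX
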